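import Pool.Agent.Helper93.UX.Defs
import Pool.Agent.Helper56.UG.Cv

/-!
# UX, block dx3_of, first part: ordinates against the measure of a set

For each ordinate `g` of a finite set `G` the interval `(g + β - x s, g + β]` lies in `H`. Then `#G x s ≤ ∫_H zc [t - β, t - β + x s) dt`,
and `z ≤ x A (1 + P (z/x)^(2q))`, `A = P^(-1/(2q))`.
-/

set_option autoImplicit false
open MeasureTheory Set Filter Topology
open Pool.Agent.Helper57.PC (IsNontrivialZero mult)
open Pool.Agent.Helper57.Zeta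
open Pool.Agent.Helper93.UG (zc IsOrd sp)
open Pool.Agent.Helper56.UG
open Pool.Agent.Helper93.UX

namespace Pool.Agent.Helper44.UX

lemma one_le_mult' {ρ : ℂ} (h : IsNontrivialZero ρ) : 1 ≤ mult ρ := by
  have h1 : xi ρ = 0 := isNontrivialZero_iff.mp h
  rw [mult_eq h]
  have hn : analyticOrderNatAt xi ρ ≠ 0 := (order_pos_iff differentiable_xi xi_two_ne ρ).mpr h1
  exact Nat.one_le_iff_ne_zero.2 hn

lemma ncard_le_zc {G I : Set ℝ} {a b : ℝ} (hI : I ⊆ Icc a b) (hG : ∀ g ∈ G, IsOrd g ∧ g ∈ I) : G.ncard ≤ zc I := by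
  have hf := fin_of hI
  have h1 : G ⊆ Complex.im '' {ρ : ℂ | IsNontrivialZero ρ ∧ ρ.im ∈ I} := by
    intro g hg
    obtain ⟨⟨ρ, h1, h2⟩, h3⟩ := hG g hg
    exact ⟨ρ, ⟨h1, by rw [h2]; exact h3⟩, h2⟩
  have h2 : G.ncard ≤ {ρ : ℂ | IsNontrivialZero ρ ∧ ρ.im ∈ I}.ncard :=
    (Set.ncard_le_ncard h1 (hf.image _)).trans (Set.ncard_image_le hf)
  refine h2.trans ?_
  rw [zc_eq hI, Set.ncard_eq_toFinset_card _ hf, Finset.card_eq_sum_ones]
  refine Finset.sum_le_sum fun ρ hρ => ?_
  rw [Set.Finite.mem_toFinset] at hρ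
  exact one_le_mult' hρ.1

lemma pt_le {z x A P : ℝ} {q : ℕ} (hz : 0 ≤ z) (hx : 0 < x) (hA : 0 < A) (hAP : A ^ (2 * q) * P = 1) (hq : 1 ≤ q) :
    z ≤ x * A + x * A * P * (z / x) ^ (2 * q) := by
  have hA2 : 0 < A ^ (2 * q) := pow_pos hA _
  have hP : P = (A ^ (2 * q))⁻¹ := by
    field_simp
    linarith
  set y := z / (x * A) with hy
  have hy0 : 0 ≤ y := by positivity
  have hzy : z = x * A * y := by
    rw [hy]
    field_simp
  have h1 : P * (z / x) ^ (2 * q) = y ^ (2 * q) := by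
    have e : z / x = A * y := by
      rw [hzy]
      field_simp
    rw [e, mul_pow, hP]
    field_simp
  have h2 : y ≤ 1 + y ^ (2 * q) := by
    rcases le_total y 1 with h | h
    · have := pow_nonneg hy0 (2 * q)
      linarith
    · have := le_self_pow₀ h (show 2 * q ≠ 0 by omega)
      linarith
  calc z = x * A * y := hzy
    _ ≤ x * A * (1 + y ^ (2 * q)) := mul_le_mul_of_nonneg_left h2 (by positivity)
    _ = x * A + x * A * P * (z / x) ^ (2 * q) := by rw [mul_assoc (x * A) P, h1]; ring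

lemma pow_split {z x : ℝ} {q : ℕ} (hx : 0 < x) (hz : 0 ≤ z) : (z / x) ^ (2 * q) ≤ 4 ^ q * (1 + |z - x| ^ (2 * q) / x ^ (2 * q)) := by
  set w := |z - x| / x with hw
  have hw0 : 0 ≤ w := by positivity
  have h1 : z / x ≤ 1 + w := by
    have h2 : z ≤ x + |z - x| := by linarith [le_abs_self (z - x)]
    rw [hw]
    calc z / x ≤ (x + |z - x|) / x := div_le_div_of_nonneg_right h2 hx.le
      _ = 1 + |z - x| / x := by field_simp
  have h2 : z / x ≤ 2 * max 1 w := by
    have h3 := le_max_left 1 w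
    have h4 := le_max_right 1 w
    linarith
  have h3 : (z / x) ^ (2 * q) ≤ (2 * max 1 w) ^ (2 * q) := pow_le_pow_left₀ (by positivity) h2 _
  have h4 : (2 : ℝ) ^ (2 * q) = 4 ^ q := by rw [pow_mul]; norm_num
  have h5 : (max 1 w) ^ (2 * q) ≤ 1 + w ^ (2 * q) := by
    rcases le_total 1 w with h | h
    · rw [max_eq_right h]
      linarith
    · rw [max_eq_left h, one_pow]
      have := pow_nonneg hw0 (2 * q)
      linarith
  rw [mul_pow, h4] at h3
  have h6 : w ^ (2 * q) = |z - x| ^ (2 * q) / x ^ (2 * q) := by rw [hw, div_pow]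
  rw [h6] at h5
  exact h3.trans (mul_le_mul_of_nonneg_left h5 (by positivity))

theorem count_le (h1 : TX1) (q : ℕ) (hq : 1 ≤ q) : ∃ C d T₀ : ℝ, 0 < C ∧ 0 < d ∧ ∀ T : ℝ, T₀ ≤ T → ∀ x : ℝ, 1 ≤ x →
    x ≤ d * (Real.log T / Real.log (Real.log T)) → ∀ β : ℝ, 0 ≤ β → β ≤ 1 → ∀ (G H : Set ℝ), G.Finite →
    (∀ g ∈ G, IsOrd g ∧ T ≤ g ∧ g ≤ 2 * T) → ∀ A P : ℝ, 0 < A → 0 < P → A ^ (2 * q) * P = 1 →
    volume (H ∩ Icc (T / 2) (3 * T)) ≤ ENNReal.ofReal (P * T) →
    (∀ g ∈ G, ∀ t : ℝ, g + β - x * sp T < t → t ≤ g + β → t ∈ H) →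
      (G.ncard : ℝ) ≤ C * (A * P) * (T * Real.log T) := by
  classical
  obtain ⟨C₁, d₁, T₁, hC₁, hd₁, H1⟩ := h1 q
  set C₂ : ℝ := 4 ^ q * (3 + C₁ * 2 ^ q) with hC₂
  have hC₂0 : 0 < C₂ := by positivity
  refine ⟨1 + C₂, min d₁ 1, max T₁ (Real.exp (Real.exp (Real.exp 2))), by linarith, lt_min hd₁ one_pos, ?_⟩
  intro T hT x hx hxd β hβ hβ1 G H hGf hG A P hA hP hAP hvol hcov
  have hT₁ : T₁ ≤ T := (le_max_left _ _).trans hT
  have hTe : Real.exp (Real.exp (Real.exp 2)) ≤ T := (le_max_right _ _).trans hT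
  have hT0 : 0 < T := lt_of_lt_of_le (Real.exp_pos _) hTe
  have hlogT : Real.exp (Real.exp 2) ≤ Real.log T := by
    rw [← Real.log_exp (Real.exp (Real.exp 2))]
    exact Real.log_le_log (Real.exp_pos _) hTe
  have hlog0 : 0 < Real.log T := lt_of_lt_of_le (Real.exp_pos _) hlogT
  have hll : Real.exp 2 ≤ Real.log (Real.log T) := by
    rw [← Real.log_exp (Real.exp 2)]
    exact Real.log_le_log (Real.exp_pos _) hlogT
  have he2 : (7:ℝ) ≤ Real.exp 2 := by
    have h5 : Real.exp 2 = Real.exp 1 * Real.exp 1 := by rw [← Real.exp_add]; norm_num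
    have h6 := Real.exp_one_gt_d9
    rw [h5]
    nlinarith
  have hll7 : (7 : ℝ) ≤ Real.log (Real.log T) := he2.trans hll
  have hT8 : (8 : ℝ) ≤ T := by
    have h3 := Real.add_one_le_exp (Real.exp (Real.exp 2))
    have h4 := Real.add_one_le_exp (Real.exp 2)
    linarith
  have hx0 : 0 < x := by linarith
  have hs : 0 < sp T := by
    unfold sp
    have := Real.pi_pos
    positivity
  set X := x * sp T with hX
  have hX0 : 0 < X := by positivity
  have hquot : 0 ≤ Real.log T / Real.log (Real.log T) := div_nonneg hlog0.le (by linarith)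
  have hxd1 : x ≤ d₁ * (Real.log T / Real.log (Real.log T)) :=
    hxd.trans (mul_le_mul_of_nonneg_right (min_le_left _ _) hquot)
  have hX1 : X ≤ 1 := by
    have h2 : x ≤ Real.log T / Real.log (Real.log T) := by
      have := hxd.trans (mul_le_mul_of_nonneg_right (min_le_right d₁ 1) hquot)
      linarith
    have hpi := Real.pi_lt_d2
    rw [hX]
    unfold sp
    calc x * (2 * Real.pi / Real.log T) ≤ (Real.log T / Real.log (Real.log T)) * (2 * Real.pi / Real.log T) :=
          mul_le_mul_of_nonneg_right h2 (by positivity)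
      _ = 2 * Real.pi / Real.log (Real.log T) := by field_simp
      _ ≤ 1 := by
          rw [div_le_one (by linarith)]
          linarith
  obtain ⟨hint, hmom⟩ := H1 T hT₁ x hx hxd1
  set Gf := hGf.toFinset with hGfd
  have hcard : (G.ncard : ℝ) = (Gf.card : ℝ) := by rw [Set.ncard_eq_toFinset_card _ hGf]
  set z : ℝ → ℝ := fun u => (zc (Ico u (u + X)) : ℝ) with hz
  have hz0 : ∀ u, 0 ≤ z u := fun u => Nat.cast_nonneg _
  set H₁ := toMeasurable volume (H ∩ Icc (T / 2) (3 * T)) with hH₁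
  have hH₁m : MeasurableSet H₁ := measurableSet_toMeasurable _ _
  have hH₁v : volume H₁ ≤ ENNReal.ofReal (P * T) := by
    rw [hH₁, measure_toMeasurable]
    exact hvol
  -- the sum of the lengths
  have hsum : ENNReal.ofReal (Gf.card * X) = ∫⁻ t, ∑ g ∈ Gf, (Ioc (g + β - X) (g + β)).indicator (fun _ => (1 : ENNReal)) t := by
    rw [lintegral_finsetSum _ (fun g _ => measurable_const.indicator measurableSet_Ioc)]
    have h2 : ∀ g ∈ Gf, ∫⁻ t, (Ioc (g + β - X) (g + β)).indicator (fun _ => (1 : ENNReal)) t = ENNReal.ofReal X := by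
      intro g _
      rw [lintegral_indicator measurableSet_Ioc, setLIntegral_const, one_mul, Real.volume_Ioc, sub_sub_cancel]
    rw [Finset.sum_congr rfl h2, Finset.sum_const, nsmul_eq_mul, ENNReal.ofReal_mul (Nat.cast_nonneg _), ENNReal.ofReal_natCast]
  -- the function of `t - β`
  set W : ℝ → ℝ := fun u => x * A * P * (4 ^ q * (1 + |z u - x| ^ (2 * q) / x ^ (2 * q))) with hW
  have hW0 : ∀ u, 0 ≤ W u := fun u => by
    rw [hW]
    positivity
  set ψ : ℝ → ENNReal := (Icc (T / 2) (3 * T)).indicator (fun u => ENNReal.ofReal (W u)) with hψ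
  have hpt : ∀ t, ∑ g ∈ Gf, (Ioc (g + β - X) (g + β)).indicator (fun _ => (1 : ENNReal)) t ≤
      H₁.indicator (fun _ => ENNReal.ofReal (x * A)) t + ψ (t - β) := by
    intro t
    have e1 : ∑ g ∈ Gf, (Ioc (g + β - X) (g + β)).indicator (fun _ => (1 : ENNReal)) t =
        ((Gf.filter fun g => t ∈ Ioc (g + β - X) (g + β)).card : ENNReal) := by
      simp only [Set.indicator_apply]
      rw [Finset.sum_ite, Finset.sum_const_zero, add_zero, Finset.sum_const, nsmul_eq_mul, mul_one]
    rw [e1]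
    rcases (Gf.filter fun g => t ∈ Ioc (g + β - X) (g + β)).eq_empty_or_nonempty with he | ⟨g, hg⟩
    · rw [he, Finset.card_empty, Nat.cast_zero]
      exact zero_le
    · have hgG : g ∈ G := by
        have := (Finset.mem_filter.1 hg).1
        rwa [hGfd, Set.Finite.mem_toFinset] at this
      have hgt := (Finset.mem_filter.1 hg).2
      have hgT := hG g hgG
      have htH : t ∈ H := hcov g hgG t hgt.1 hgt.2
      have htI : t ∈ Icc (T / 2) (3 * T) := ⟨by linarith [hgt.1, hgT.2.1], by linarith [hgt.2, hgT.2.2]⟩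
      have htH₁ : t ∈ H₁ := subset_toMeasurable _ _ ⟨htH, htI⟩
      have htβ : t - β ∈ Icc (T / 2) (3 * T) := ⟨by linarith [hgt.1, hgT.2.1], by linarith [hgt.2, hgT.2.2]⟩
      rw [Set.indicator_of_mem htH₁, hψ, Set.indicator_of_mem htβ, ← ENNReal.ofReal_add (by positivity) (hW0 _)]
      have h2 : (((Gf.filter fun g => t ∈ Ioc (g + β - X) (g + β)).card : ℕ) : ℝ) ≤ z (t - β) := by
        rw [hz]
        have h3 : (((Gf.filter fun g => t ∈ Ioc (g + β - X) (g + β)) : Finset ℝ) : Set ℝ).ncard ≤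
            zc (Ico (t - β) (t - β + X)) := by
          refine ncard_le_zc (a := t - β) (b := t - β + X) Ico_subset_Icc_self fun g' hg' => ?_
          have hg1 := Finset.mem_coe.1 hg'
          have hg2 := (Finset.mem_filter.1 hg1).1
          rw [hGfd, Set.Finite.mem_toFinset] at hg2
          have hg3 := (Finset.mem_filter.1 hg1).2
          exact ⟨(hG g' hg2).1, by linarith [hg3.2], by linarith [hg3.1]⟩
        rw [Set.ncard_coe_finset] at h3
        show (((Gf.filter fun g => t ∈ Ioc (g + β - X) (g + β)).card : ℕ) : ℝ) ≤ (zc (Ico (t - β) (t - β + X)) : ℝ)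
        exact Nat.cast_le.2 h3
      rw [← ENNReal.ofReal_natCast]
      refine ENNReal.ofReal_le_ofReal (h2.trans ((pt_le (hz0 _) hx0 hA hAP hq).trans ?_))
      rw [hW]
      exact add_le_add le_rfl (mul_le_mul_of_nonneg_left (pow_split hx0 (hz0 _)) (by positivity))
  have hshift : ∫⁻ t, ψ (t - β) = ∫⁻ t, ψ t := lintegral_sub_right_eq_self ψ β
  have hψi : ∫⁻ t, ψ t ≤ ENNReal.ofReal (x * A * P * (C₂ * T)) := by
    rw [hψ, lintegral_indicator measurableSet_Icc]
    have hWi : IntegrableOn W (Icc (T / 2) (3 * T)) := by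
      rw [hW]
      refine Integrable.const_mul (Integrable.const_mul (Integrable.add ?_ (Integrable.div_const hint _)) _) _
      exact integrableOn_const (by rw [Real.volume_Icc]; exact ENNReal.ofReal_ne_top)
    rw [← ofReal_integral_eq_lintegral_ofReal hWi (ae_of_all _ hW0)]
    refine ENNReal.ofReal_le_ofReal ?_
    have e2 : ∫ u in Icc (T / 2) (3 * T), W u = x * A * P * (4 ^ q * ((3 * T - T / 2) +
        (∫ u in Icc (T / 2) (3 * T), |z u - x| ^ (2 * q)) / x ^ (2 * q))) := by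
      rw [hW]
      rw [integral_const_mul, integral_const_mul, integral_add, integral_div]
      · congr 3
        rw [setIntegral_const, smul_eq_mul, mul_one, Measure.real, Real.volume_Icc, ENNReal.toReal_ofReal (by linarith)]
      · exact integrableOn_const (by rw [Real.volume_Icc]; exact ENNReal.ofReal_ne_top)
      · exact Integrable.div_const hint _
    rw [e2]
    refine mul_le_mul_of_nonneg_left ?_ (by positivity)
    have h3 : (∫ u in Icc (T / 2) (3 * T), |z u - x| ^ (2 * q)) / x ^ (2 * q) ≤ C₁ * 2 ^ q * T := by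
      rw [div_le_iff₀ (by positivity)]
      refine hmom.trans ?_
      have h4 : Real.log (2 + x) ≤ 2 * x ^ 2 := by
        have := Real.log_le_sub_one_of_pos (show (0 : ℝ) < 2 + x by linarith)
        nlinarith
      have h5 : Real.log (2 + x) ^ q ≤ 2 ^ q * x ^ (2 * q) := by
        rw [pow_mul x 2 q, ← mul_pow]
        exact pow_le_pow_left₀ (Real.log_nonneg (by linarith)) h4 q
      calc C₁ * Real.log (2 + x) ^ q * T ≤ C₁ * (2 ^ q * x ^ (2 * q)) * T := by gcongr
        _ = C₁ * 2 ^ q * T * x ^ (2 * q) := by ring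
    calc (4 : ℝ) ^ q * ((3 * T - T / 2) + (∫ u in Icc (T / 2) (3 * T), |z u - x| ^ (2 * q)) / x ^ (2 * q))
        ≤ 4 ^ q * (3 * T + C₁ * 2 ^ q * T) := by
          refine mul_le_mul_of_nonneg_left ?_ (by positivity)
          linarith
      _ = C₂ * T := by rw [hC₂]; ring
  have hmain : ENNReal.ofReal (Gf.card * X) ≤ ENNReal.ofReal (x * A * (P * T) + x * A * P * (C₂ * T)) := by
    rw [hsum]
    refine (lintegral_mono hpt).trans ?_
    rw [lintegral_add_left (measurable_const.indicator hH₁m), hshift, lintegral_indicator hH₁m, setLIntegral_const,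
      ENNReal.ofReal_add (by positivity) (by positivity), ENNReal.ofReal_mul (p := x * A) (by positivity)]
    exact add_le_add (mul_le_mul_right hH₁v _) hψi
  have hreal : (Gf.card : ℝ) * X ≤ x * A * (P * T) + x * A * P * (C₂ * T) :=
    (ENNReal.ofReal_le_ofReal_iff (by positivity)).1 hmain
  have h6 : (Gf.card : ℝ) * sp T ≤ (1 + C₂) * (A * P) * T := by
    have h7 : ((Gf.card : ℝ) * sp T) * x ≤ ((1 + C₂) * (A * P) * T) * x := by
      rw [hX] at hreal
      linarith
    exact le_of_mul_le_mul_right h7 hx0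
  rw [hcard]
  have h8 : sp T * Real.log T = 2 * Real.pi := by
    unfold sp
    field_simp
  have h9 : (Gf.card : ℝ) * (2 * Real.pi) ≤ (1 + C₂) * (A * P) * (T * Real.log T) := by
    calc (Gf.card : ℝ) * (2 * Real.pi) = ((Gf.card : ℝ) * sp T) * Real.log T := by rw [mul_assoc, h8]
      _ ≤ ((1 + C₂) * (A * P) * T) * Real.log T := mul_le_mul_of_nonneg_right h6 hlog0.le
      _ = (1 + C₂) * (A * P) * (T * Real.log T) := by ring
  have h10 : (Gf.card : ℝ) * 1 ≤ (Gf.card : ℝ) * (2 * Real.pi) :=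
    mul_le_mul_of_nonneg_left (by linarith [Real.pi_gt_three]) (Nat.cast_nonneg _)
  linarith

end Pool.Agent.Helper44.UX
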