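import Pool.Agent.Helper44.UX.Cnt

/-!
# UX, block dx3_of: upper bounds for the numbers of long and short `r`-gaps

PROOF. `κ V < 1`: all ordinates (`count_le` with `x = 1`, `H = univ`). `κ V ≥ 1`: for a long gap with the first ordinate `g` every `t` in
`(g, g + κ V s]` has `zc [t, t + c s) < r`, `c = r + (1 - κ) V`; for a short gap every `t` in `(g - κ V s, g]` has `zc [t, t + c s) > r`,
`c = r - (1 - κ) V`. `count_le` with `x = κ V`, `P` from TX2 with the deviation `(1 - κ) V`.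
-/

set_option autoImplicit false
open MeasureTheory Set Filter Topology
open Pool.Agent.Helper93.UG (zc IsOrd sp Glong Gshort)
open Pool.Agent.Helper56.UG
open Pool.Agent.Helper93.UX

namespace Pool.Agent.Helper44.UX

lemma vlog {V ℓ w lc : ℝ} (hV : 0 ≤ V) (hVℓ : V ≤ ℓ) (hℓ : 1 ≤ ℓ) (hw : 0 ≤ w) (hw1 : w ≤ 1) (hlc : 0 < lc)
    (h : lc ≤ ℓ + w) : V ^ 2 / ℓ - 1 ≤ V ^ 2 / lc := by
  have h1 : V ^ 2 / (ℓ + w) ≤ V ^ 2 / lc := div_le_div_of_nonneg_left (by positivity) hlc h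
  refine le_trans ?_ h1
  rw [sub_le_iff_le_add, div_le_iff₀ (by linarith)]
  have hs : 0 < ℓ + w := by linarith
  have h2 : (V ^ 2 / (ℓ + w) + 1) * ℓ = (V ^ 2 + (ℓ + w)) * ℓ / (ℓ + w) := by field_simp
  rw [h2, le_div_iff₀ hs]
  have h3 : V ^ 2 * w ≤ V ^ 2 := by nlinarith [sq_nonneg V]
  have h4 : V ^ 2 ≤ ℓ ^ 2 := pow_le_pow_left₀ hV hVℓ 2
  have h5 : 0 ≤ w * ℓ := by positivity
  nlinarith

lemma mbound {ε₁ a u κ : ℝ} (h0 : 0 < ε₁) (h1 : ε₁ ≤ 1) (ha : 4 ≤ a) (ha5 : a ≤ 5) (hu : 0 ≤ u) (hu1 : u ≤ ε₁ / 20)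
    (hκ : κ = ε₁ / 40) :
    a - ε₁ ≤ (1 - u) * ((a - ε₁ / 4) * (1 - κ) ^ 2) ∧ (1 - u) * ((a - ε₁ / 4) * (1 - κ) ^ 2) ≤ 5 ∧
      0 ≤ (1 - u) * ((a - ε₁ / 4) * (1 - κ) ^ 2) := by
  have hk1 : 1 - ε₁ / 20 ≤ (1 - κ) ^ 2 := by
    rw [hκ]
    nlinarith [sq_nonneg ε₁]
  have hk2 : (1 - κ) ^ 2 ≤ 1 := by
    rw [hκ]
    nlinarith
  have hk0 : 0 ≤ (1 - κ) ^ 2 := sq_nonneg _
  have hb1 : 1 - ε₁ / 10 ≤ (1 - u) * (1 - κ) ^ 2 := by
    calc 1 - ε₁ / 10 ≤ (1 - ε₁ / 20) * (1 - ε₁ / 20) := by nlinarith [sq_nonneg ε₁]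
      _ ≤ (1 - u) * (1 - κ) ^ 2 := mul_le_mul (by linarith) hk1 (by linarith) (by linarith)
  have hb2 : (1 - u) * (1 - κ) ^ 2 ≤ 1 := by
    calc (1 - u) * (1 - κ) ^ 2 ≤ 1 * 1 := mul_le_mul (by linarith) hk2 hk0 (by norm_num)
      _ = 1 := by norm_num
  have e : (1 - u) * ((a - ε₁ / 4) * (1 - κ) ^ 2) = (a - ε₁ / 4) * ((1 - u) * (1 - κ) ^ 2) := by ring
  rw [e]
  have ha0 : 0 ≤ a - ε₁ / 4 := by linarith
  have hb0 : 0 ≤ (1 - u) * (1 - κ) ^ 2 := by linarith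
  refine ⟨?_, ?_, mul_nonneg ha0 hb0⟩
  · have h3 := mul_le_mul_of_nonneg_left hb1 ha0
    nlinarith
  · have h3 := mul_le_mul_of_nonneg_left hb2 ha0
    linarith

theorem dx3_of (h1 : TX1) (h2 : TX2) : DX3 := by
  intro ε hε
  set a : ℝ := Real.pi ^ 2 / 2 with ha
  have ha4 : 4 ≤ a := by rw [ha]; nlinarith [Real.pi_gt_three]
  have ha5 : a ≤ 5 := by rw [ha]; nlinarith [Real.pi_lt_d2, Real.pi_pos]
  set ε₁ : ℝ := min ε 1 with hε₁
  have hε₁0 : 0 < ε₁ := lt_min hε one_pos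
  have hε₁1 : ε₁ ≤ 1 := min_le_right _ _
  have hε₁ε : ε₁ ≤ ε := min_le_left _ _
  set κ : ℝ := ε₁ / 40 with hκ
  have hκ0 : 0 < κ := by positivity
  have hκ1 : κ ≤ 1 / 40 := by rw [hκ]; linarith
  set q : ℕ := ⌈10 / ε₁⌉₊ with hq
  have hq1 : 1 ≤ q := Nat.one_le_iff_ne_zero.2 (Nat.ceil_pos.2 (by positivity)).ne'
  have hq10 : 10 / ε₁ ≤ q := Nat.le_ceil _
  have hqp : (0 : ℝ) < q := by exact_mod_cast hq1
  set u : ℝ := 1 / (2 * q) with hu
  have hu0 : 0 < u := by positivity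
  have hu1 : u ≤ ε₁ / 20 := by
    rw [hu, div_le_div_iff₀ (by positivity) (by norm_num)]
    rw [div_le_iff₀ hε₁0] at hq10
    linarith
  have huq : u * (2 * q) = 1 := by rw [hu]; field_simp
  obtain ⟨hm1, hm5, hm0⟩ := mbound hε₁0 hε₁1 ha4 ha5 hu0.le hu1 hκ
  set m : ℝ := (1 - u) * ((a - ε₁ / 4) * (1 - κ) ^ 2) with hm
  obtain ⟨Cq, dq, Tq, hCq, hdq, Hq⟩ := count_le h1 q hq1
  obtain ⟨C₂, η₂, d₂, c₂, T₂, hC₂, hη₂, hd₂, H2⟩ := h2 (ε₁ / 4) (by positivity)
  refine ⟨max 4 ⌈2 * c₂⌉₊, C₂ + 5 + Cq + 1 + 5 / κ ^ 2, min 1 (η₂ / 2), min (min dq 1) (d₂ / 2),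
    max (max Tq T₂) (Real.exp (Real.exp 7)), by positivity, lt_min one_pos (by positivity),
    lt_min (lt_min hdq one_pos) (by positivity), ?_⟩
  intro T hT r hr hrT V hV hVη
  have hTq : Tq ≤ T := ((le_max_left _ _).trans (le_max_left _ _)).trans hT
  have hT₂ : T₂ ≤ T := ((le_max_right _ _).trans (le_max_left _ _)).trans hT
  have hTe : Real.exp (Real.exp 7) ≤ T := (le_max_right _ _).trans hT
  have hT0 : 0 < T := lt_of_lt_of_le (Real.exp_pos _) hTe
  have hlogT : Real.exp 7 ≤ Real.log T := by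
    rw [← Real.log_exp (Real.exp 7)]
    exact Real.log_le_log (Real.exp_pos _) hTe
  have hlog0 : 0 < Real.log T := lt_of_lt_of_le (Real.exp_pos _) hlogT
  have hll : 7 ≤ Real.log (Real.log T) := by
    rw [← Real.log_exp 7]
    exact Real.log_le_log (Real.exp_pos _) hlogT
  have hsp : 0 < sp T := by
    unfold sp
    have := Real.pi_pos
    positivity
  set Q : ℝ := Real.log T / Real.log (Real.log T) with hQ
  have hQ0 : 0 ≤ Q := div_nonneg hlog0.le (by linarith)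
  have hr4 : (4 : ℝ) ≤ r := by exact_mod_cast (le_max_left _ _).trans hr
  have hrc : 2 * c₂ ≤ r := (Nat.le_ceil _).trans (by exact_mod_cast (le_max_right _ _).trans hr)
  have hrdq : (r : ℝ) ≤ dq * Q :=
    hrT.trans (mul_le_mul_of_nonneg_right ((min_le_left _ _).trans (min_le_left _ _)) hQ0)
  have hrQ : (r : ℝ) ≤ Q := by
    have := hrT.trans (mul_le_mul_of_nonneg_right ((min_le_left _ _).trans (min_le_right _ _)) hQ0)
    linarith
  have hrd₂ : (r : ℝ) ≤ d₂ / 2 * Q := hrT.trans (mul_le_mul_of_nonneg_right (min_le_right _ _) hQ0)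
  have hr0 : (0 : ℝ) < r := by linarith
  set ℓ : ℝ := Real.log r with hℓ
  have hℓ1 : 1 ≤ ℓ := by
    rw [hℓ, Real.le_log_iff_exp_le hr0]
    linarith [Real.exp_one_lt_d9]
  have hlog4 : 2 * Real.log 2 ≤ ℓ := by
    have h3 : Real.log 4 ≤ ℓ := Real.log_le_log (by norm_num) hr4
    have h4 : Real.log 4 = 2 * Real.log 2 := by
      rw [show (4 : ℝ) = 2 ^ 2 by norm_num, Real.log_pow]
      norm_num
    linarith
  have hlr2 : Real.log ((r : ℝ) / 2) = ℓ - Real.log 2 := Real.log_div hr0.ne' (by norm_num)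
  have hℓr : ℓ ≤ r / 2 := by
    have h3 := Real.log_le_sub_one_of_pos (show (0 : ℝ) < (r : ℝ) / 2 by positivity)
    rw [hlr2] at h3
    linarith [Real.log_two_lt_d9]
  have hVℓ : V ≤ ℓ := by
    have := hVη.trans (mul_le_mul_of_nonneg_right (min_le_left _ _) (by linarith : (0 : ℝ) ≤ ℓ))
    linarith
  have hVη₂ : V ≤ η₂ / 2 * ℓ := hVη.trans (mul_le_mul_of_nonneg_right (min_le_right _ _) (by linarith))
  have hVr : V ≤ r / 2 := hVℓ.trans hℓr
  -- the last step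
  have fin : ∀ (G : Set ℝ) (L : ℝ), (G.ncard : ℝ) ≤ Cq * (Real.exp (-(u * L)) * Real.exp L) * (T * Real.log T) →
      (1 - u) * L ≤ C₂ + 5 + 1 + 5 / κ ^ 2 - (a - ε) * V ^ 2 / ℓ →
      (G.ncard : ℝ) ≤ Real.exp (C₂ + 5 + Cq + 1 + 5 / κ ^ 2 - (a - ε) * V ^ 2 / ℓ) * (T * Real.log T) := by
    intro G L h3 h4
    refine h3.trans (mul_le_mul_of_nonneg_right ?_ (by positivity))
    rw [← Real.exp_add]
    calc Cq * Real.exp (-(u * L) + L) ≤ Real.exp Cq * Real.exp (C₂ + 5 + 1 + 5 / κ ^ 2 - (a - ε) * V ^ 2 / ℓ) := by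
          refine mul_le_mul ?_ (Real.exp_le_exp.2 (by linarith)) (Real.exp_pos _).le (Real.exp_pos _).le
          linarith [Real.add_one_le_exp Cq]
      _ = Real.exp (C₂ + 5 + Cq + 1 + 5 / κ ^ 2 - (a - ε) * V ^ 2 / ℓ) := by
          rw [← Real.exp_add]
          congr 1
          ring
  have pw : ∀ L : ℝ, Real.exp (-(u * L)) ^ (2 * q) * Real.exp L = 1 := by
    intro L
    rw [← Real.exp_nat_mul, ← Real.exp_add, Real.exp_eq_one_iff]
    push_cast
    linear_combination (-L) * huq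
  rcases lt_or_ge (κ * V) 1 with hs | hb
  · have hκV : κ ^ 2 * V ^ 2 ≤ 1 := by
      have h3 : (κ * V) ^ 2 ≤ 1 := pow_le_one₀ (by positivity) hs.le
      calc κ ^ 2 * V ^ 2 = (κ * V) ^ 2 := by ring
        _ ≤ 1 := h3
    have hV2 : V ^ 2 ≤ 1 / κ ^ 2 := by
      rw [le_div_iff₀ (by positivity)]
      linarith
    have hW : (a - ε) * V ^ 2 / ℓ ≤ 5 / κ ^ 2 := by
      rw [div_le_iff₀ (by linarith)]
      have h3 : (a - ε) * V ^ 2 ≤ 5 * V ^ 2 := mul_le_mul_of_nonneg_right (by linarith) (sq_nonneg V)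
      have h4 : 0 ≤ 5 / κ ^ 2 := by positivity
      have h5 : 5 / κ ^ 2 * 1 ≤ 5 / κ ^ 2 * ℓ := mul_le_mul_of_nonneg_left hℓ1 h4
      have h6 : 5 * (1 / κ ^ 2) = 5 / κ ^ 2 := by ring
      linarith
    have key : ∀ G : Set ℝ, G.Finite → (∀ g ∈ G, IsOrd g ∧ T ≤ g ∧ g ≤ 2 * T) →
        (G.ncard : ℝ) ≤ Real.exp (C₂ + 5 + Cq + 1 + 5 / κ ^ 2 - (a - ε) * V ^ 2 / ℓ) * (T * Real.log T) := by
      intro G hGf hG
      refine fin G 1 (Hq T hTq 1 le_rfl (by linarith) 0 le_rfl zero_le_one G univ hGf hG _ _ (Real.exp_pos _)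
        (Real.exp_pos _) (pw 1) ?_ fun _ _ _ _ _ => mem_univ _) ?_
      · rw [univ_inter, Real.volume_Icc]
        refine ENNReal.ofReal_le_ofReal ?_
        have h3 : (2.7 : ℝ) ≤ Real.exp 1 := by linarith [Real.exp_one_gt_d9]
        have h4 := mul_le_mul_of_nonneg_right h3 hT0.le
        linarith
      · linarith
    exact ⟨key _ (Glong_finite _ _ _) fun g hg => ⟨hg.2.2.1, hg.1, hg.2.1⟩,
      key _ (Gshort_finite _ _ _) fun g hg => ⟨hg.2.2.1, hg.1, hg.2.1⟩⟩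
  · have hκV : κ * V ≤ V := by
      have h3 := mul_le_mul_of_nonneg_right hκ1 hV
      linarith
    have hκV1 : (1 - κ) * V ≤ V := by
      have h3 : 0 ≤ κ * V := by positivity
      linarith
    have hκV0 : 0 ≤ (1 - κ) * V := mul_nonneg (by linarith) hV
    have large : ∀ (G : Set ℝ) (c β : ℝ), G.Finite → (∀ g ∈ G, IsOrd g ∧ T ≤ g ∧ g ≤ 2 * T) → (r : ℝ) / 2 ≤ c →
        c ≤ r + V → 0 ≤ β → β ≤ 1 →
        (∀ g ∈ G, ∀ t : ℝ, g + β - κ * V * sp T < t → t ≤ g + β →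
          (1 - κ) * V ≤ |(zc (Ico t (t + c * sp T)) : ℝ) - c|) →
        (G.ncard : ℝ) ≤ Real.exp (C₂ + 5 + Cq + 1 + 5 / κ ^ 2 - (a - ε) * V ^ 2 / ℓ) * (T * Real.log T) := by
      intro G c β hGf hG hc1 hc2 hβ hβ1 hcov
      have hc0 : 0 < c := by linarith
      have hlc : ℓ / 2 ≤ Real.log c := by
        have h3 : Real.log ((r : ℝ) / 2) ≤ Real.log c := Real.log_le_log (by positivity) hc1
        rw [hlr2] at h3
        linarith
      have hlc2 : Real.log c ≤ ℓ + V / r := by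
        have h3 : Real.log c ≤ Real.log (r * (1 + V / r)) := by
          refine Real.log_le_log hc0 (hc2.trans (le_of_eq ?_))
          field_simp
        have h4 : 0 ≤ V / r := by positivity
        rw [Real.log_mul hr0.ne' (by positivity)] at h3
        have h5 := Real.log_le_sub_one_of_pos (show (0 : ℝ) < 1 + V / r by positivity)
        linarith
      have hVr1 : V / r ≤ 1 := by
        rw [div_le_one hr0]
        linarith
      have hlc0 : 0 < Real.log c := by linarith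
      have hW := vlog hV hVℓ hℓ1 (w := V / r) (by positivity) hVr1 hlc0 hlc2
      set L := C₂ - (a - ε₁ / 4) * ((1 - κ) * V) ^ 2 / Real.log c with hL
      refine fin G L (Hq T hTq (κ * V) hb ?_ β hβ hβ1 G {t : ℝ | (1 - κ) * V ≤ |(zc (Ico t (t + c * sp T)) : ℝ) - c|}
        hGf hG _ _ (Real.exp_pos _) (Real.exp_pos _) (pw L) ?_ hcov) ?_
      · linarith
      · have h4 : (1 - κ) * V ≤ η₂ * Real.log c := by
          have h5 := mul_le_mul_of_nonneg_left hlc hη₂.le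
          linarith
        have h5 := H2 T hT₂ c ((1 - κ) * V) (by linarith) (by linarith) hκV0 h4
        have h6 : {t : ℝ | (1 - κ) * V ≤ |(zc (Ico t (t + c * sp T)) : ℝ) - c|} ∩ Icc (T / 2) (3 * T) =
            {t : ℝ | T / 2 ≤ t ∧ t ≤ 3 * T ∧ (1 - κ) * V ≤ |(zc (Ico t (t + c * sp T)) : ℝ) - c|} := by
          ext t
          constructor
          · rintro ⟨h7, h8⟩
            exact ⟨h8.1, h8.2, h7⟩
          · rintro ⟨h7, h8, h9⟩
            exact ⟨h9, h7, h8⟩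
        rw [h6]
        exact h5
      · have e : (1 - u) * L = (1 - u) * C₂ - m * (V ^ 2 / Real.log c) := by
          rw [hL, hm]
          ring
        rw [e, mul_div_assoc]
        have h7 : m * (V ^ 2 / ℓ - 1) ≤ m * (V ^ 2 / Real.log c) := mul_le_mul_of_nonneg_left hW hm0
        have h8 : 0 ≤ V ^ 2 / ℓ := by positivity
        have h9 : (a - ε) * (V ^ 2 / ℓ) ≤ m * (V ^ 2 / ℓ) := mul_le_mul_of_nonneg_right (by linarith) h8
        have h10 : 0 ≤ u * C₂ := by positivity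
        have h11 : 0 ≤ 5 / κ ^ 2 := by positivity
        have h12 : m * (V ^ 2 / ℓ - 1) = m * (V ^ 2 / ℓ) - m := by ring
        have h13 : (1 - u) * C₂ = C₂ - u * C₂ := by ring
        linarith
    have hβ1 : κ * V * sp T ≤ 1 := by
      have h3 : κ * V ≤ Q := by linarith
      have h4 := mul_le_mul_of_nonneg_right h3 hsp.le
      have h5 : Q * sp T = 2 * Real.pi / Real.log (Real.log T) := by
        rw [hQ]
        unfold sp
        field_simp
      have h6 : 2 * Real.pi / Real.log (Real.log T) ≤ 1 := by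
        rw [div_le_one (by linarith)]
        linarith [Real.pi_lt_d2]
      linarith
    have hβ0 : 0 ≤ κ * V * sp T := by positivity
    constructor
    · refine large _ (r + (1 - κ) * V) (κ * V * sp T) (Glong_finite _ _ _) (fun g hg => ⟨hg.2.2.1, hg.1, hg.2.1⟩)
        (by linarith) (by linarith) hβ0 hβ1 ?_
      intro g hg t ht1 ht2
      have h3 : Ico t (t + (r + (1 - κ) * V) * sp T) ⊆ Ioo g (g + (r + V) * sp T) := by
        intro y hy
        refine ⟨by linarith [hy.1], lt_of_lt_of_le hy.2 ?_⟩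
        have : (r + (1 - κ) * V) * sp T + κ * V * sp T = (r + V) * sp T := by ring
        linarith
      have h4 := (zc_mono h3 Ioo_subset_Icc_self).trans_lt hg.2.2.2
      have h5 : (zc (Ico t (t + (r + (1 - κ) * V) * sp T)) : ℝ) < r := by exact_mod_cast h4
      rw [abs_sub_comm]
      refine le_trans ?_ (le_abs_self _)
      linarith
    · refine large _ (r - (1 - κ) * V) 0 (Gshort_finite _ _ _) (fun g hg => ⟨hg.2.2.1, hg.1, hg.2.1⟩)
        (by linarith) (by linarith) le_rfl zero_le_one ?_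
      intro g hg t ht1 ht2
      have h3 : Icc g (g + (r - V) * sp T) ⊆ Ico t (t + (r - (1 - κ) * V) * sp T) := by
        intro y hy
        refine ⟨by linarith [hy.1], lt_of_le_of_lt hy.2 ?_⟩
        have : (r - (1 - κ) * V) * sp T - κ * V * sp T = (r - V) * sp T := by ring
        linarith
      have h4 := lt_of_lt_of_le hg.2.2.2 (zc_mono h3 Ico_subset_Icc_self)
      have h5 : (r : ℝ) < (zc (Ico t (t + (r - (1 - κ) * V) * sp T)) : ℝ) := by exact_mod_cast h4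
      refine le_trans ?_ (le_abs_self _)
      linarith

end Pool.Agent.Helper44.UX
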